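import Pool.Agent.MP_ee8c61_ag.M3H40.Dio3

/-! The Diophantine cone lemma: final statements. -/

set_option autoImplicit false

namespace Pool.Agent.MP_ee8c61_ag.M3H40

open Finset
open scoped NNReal

variable {ι : Type} [Fintype ι]

omit [Fintype ι] in
theorem cs_nsmul (n : ℕ) (a : ι → ℤ) : cs (n • a) = (n : ℝ) • cs a := by
  funext i; simp [cs]

omit [Fintype ι] in
theorem cs_zero : cs (0 : ι → ℤ) = 0 := by
  funext i; simp [cs]

omit [Fintype ι] in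
theorem cs_sum {κ : Type} (G : Finset κ) (f : κ → ι → ℤ) :
    cs (∑ g ∈ G, f g) = ∑ g ∈ G, cs (f g) := by
  funext i; simp [cs]

/-- Lattice points of bounded norm. -/
theorem fin_ball (K : ℝ) : {z : ι → ℤ | ‖cs z‖ ≤ K}.Finite := by
  classical
  refine (Set.finite_Icc (fun _ : ι => -⌈K⌉) (fun _ => ⌈K⌉)).subset fun z hz => ?_
  have h : ∀ i, |(z i : ℝ)| ≤ (⌈K⌉ : ℤ) := fun i =>
    ((norm_le_pi_norm (cs z) i).trans hz).trans (Int.le_ceil K)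
  have h' : ∀ i, |z i| ≤ ⌈K⌉ := fun i => by exact_mod_cast h i
  exact ⟨fun i => (abs_le.1 (h' i)).1, fun i => (abs_le.1 (h' i)).2⟩

/-- Rounding down the coefficients. -/
theorem round_down (H : Finset (ι → ℤ)) :
    ∃ K : ℝ, ∀ x ∈ Submodule.span ℝ≥0 (cs '' H), ∃ y ∈ AddSubmonoid.closure (H : Set (ι → ℤ)),
      ‖x - cs y‖ ≤ K ∧ x - cs y ∈ Submodule.span ℝ≥0 (cs '' H) := by
  refine ⟨∑ g ∈ H, ‖cs g‖, fun x hx => ?_⟩
  obtain ⟨c, hc, rfl⟩ := (mem_cone_iff cs H x).1 hx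
  have e : ∑ g ∈ H, c g • cs g - cs (∑ g ∈ H, ⌊c g⌋₊ • g) =
      ∑ g ∈ H, (c g - (⌊c g⌋₊ : ℝ)) • cs g := by
    rw [cs_sum, ← Finset.sum_sub_distrib]
    exact Finset.sum_congr rfl fun g _ => by rw [cs_nsmul, sub_smul]
  have h0 : ∀ g, 0 ≤ c g - (⌊c g⌋₊ : ℝ) := fun g => sub_nonneg.2 (Nat.floor_le (hc g))
  refine ⟨∑ g ∈ H, ⌊c g⌋₊ • g, AddSubmonoid.sum_mem _ fun g hg =>
    AddSubmonoid.nsmul_mem _ (AddSubmonoid.subset_closure hg) _, ?_, ?_⟩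
  · rw [e]
    refine (norm_sum_le _ _).trans (Finset.sum_le_sum fun g _ => ?_)
    rw [norm_smul, Real.norm_of_nonneg (h0 g)]
    refine mul_le_of_le_one_left (norm_nonneg _) ?_
    linarith [Nat.lt_floor_add_one (c g)]
  · rw [e]
    exact (mem_cone_iff cs H _).2 ⟨_, h0, rfl⟩

/-- Gordan's lemma for a cone given by generators. -/
theorem gordan (H : Finset (ι → ℤ)) (Λ : AddSubmonoid (ι → ℤ))
    (h : ∀ z, z ∈ Λ ↔ cs z ∈ Submodule.span ℝ≥0 (cs '' H)) : Λ.FG := by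
  classical
  obtain ⟨K, hK⟩ := round_down H
  have hf : ((H : Set (ι → ℤ)) ∪ {z | z ∈ Λ ∧ ‖cs z‖ ≤ K}).Finite :=
    H.finite_toSet.union ((fin_ball K).subset fun z hz => hz.2)
  refine (AddSubmonoid.fg_iff _).2 ⟨_, le_antisymm (AddSubmonoid.closure_le.2 ?_) ?_, hf⟩
  · rintro z (hz | hz)
    · exact (h z).2 (Submodule.subset_span ⟨z, hz, rfl⟩)
    · exact hz.1
  · intro z hz
    obtain ⟨y, hy, h1, h2⟩ := hK _ ((h z).1 hz)
    rw [← cs_sub] at h1 h2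
    have : y + (z - y) ∈ AddSubmonoid.closure
        ((H : Set (ι → ℤ)) ∪ {z | z ∈ Λ ∧ ‖cs z‖ ≤ K}) :=
      AddSubmonoid.add_mem _ (AddSubmonoid.closure_mono Set.subset_union_left hy)
        (AddSubmonoid.subset_closure (Or.inr ⟨(h _).2 h2, h1⟩))
    rwa [add_sub_cancel] at this

theorem appr (Λ : AddSubmonoid (ι → ℤ)) (x : ι → ℝ)
    (hx : x ∈ Submodule.span ℝ≥0 (cs '' (Λ : Set (ι → ℤ)))) :
    ∃ K : ℝ, ∀ t : ℝ, 0 ≤ t → ∃ y ∈ Λ, ‖t • x - cs y‖ ≤ K := by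
  induction hx using Submodule.span_induction with
  | mem x hx =>
    obtain ⟨g, hg, rfl⟩ := hx
    refine ⟨‖cs g‖, fun t ht => ⟨⌊t⌋₊ • g, Λ.nsmul_mem hg _, ?_⟩⟩
    rw [cs_nsmul, ← sub_smul, norm_smul, Real.norm_of_nonneg (sub_nonneg.2 (Nat.floor_le ht))]
    refine mul_le_of_le_one_left (norm_nonneg _) ?_
    linarith [Nat.lt_floor_add_one t]
  | zero => exact ⟨0, fun t _ => ⟨0, Λ.zero_mem, by simp [cs_zero]⟩⟩
  | add x y _ _ hx hy =>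
    obtain ⟨K, hK⟩ := hx
    obtain ⟨K', hK'⟩ := hy
    refine ⟨K + K', fun t ht => ?_⟩
    obtain ⟨a, ha, h1⟩ := hK t ht
    obtain ⟨b, hb, h2⟩ := hK' t ht
    refine ⟨a + b, Λ.add_mem ha hb, ?_⟩
    have e : t • (x + y) - cs (a + b) = (t • x - cs a) + (t • y - cs b) := by
      rw [cs_add, smul_add]; abel
    rw [e]
    exact (norm_add_le _ _).trans (add_le_add h1 h2)
  | smul c x _ hx =>
    obtain ⟨K, hK⟩ := hx
    refine ⟨K, fun t ht => ?_⟩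
    obtain ⟨a, ha, h1⟩ := hK (t * c) (mul_nonneg ht c.2)
    exact ⟨a, ha, by rwa [NNReal.smul_def, smul_smul]⟩

/-- POLY: a closed convex cone `Q` inside a rational polyhedral cone, containing the lattice
points of the polyhedral cone near `Q`, is spanned by finitely many lattice points. -/
theorem poly {α : Type} [Fintype α] (l : α → ι → ℤ) (Q : Submodule ℝ≥0 (ι → ℝ))
    (hQ : IsClosed (Q : Set (ι → ℝ))) (η : ℝ) (hη : 0 < η)
    (hP : ∀ x ∈ Q, ∀ a, 0 ≤ ∑ i, (l a i : ℝ) * x i)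
    (hD : ∀ z : ι → ℤ, (∀ a, 0 ≤ ∑ i, l a i * z i) → ∀ x ∈ Q, ‖cs z - x‖ < η → cs z ∈ Q) :
    ∃ H : Finset (ι → ℤ), Q = Submodule.span ℝ≥0 (cs '' H) := by
  classical
  have h : Dc (Finset.univ.image l) η Q := by
    refine ⟨hQ, fun x hx m hm => ?_, fun z hz => hD z fun a => ?_⟩
    · obtain ⟨a, -, rfl⟩ := Finset.mem_image.1 hm
      exact hP x hx a
    · have := hz (l a) (Finset.mem_image_of_mem l (Finset.mem_univ a))
      rw [ev_cs] at this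
      exact_mod_cast this
  obtain ⟨H, h1, h2⟩ := h.gd hη
  refine ⟨H, le_antisymm h2 (Submodule.span_le.2 ?_)⟩
  rintro _ ⟨z, hz, rfl⟩
  exact h1 z hz

/-- DIO, cone form: the monoid is the set of lattice points of a finitely generated cone. -/
theorem dio_cone {α : Type} [Fintype α] (l : α → ι → ℤ) (Λ : AddSubmonoid (ι → ℤ))
    (η : ℝ) (hη : 0 < η) (hP : ∀ y ∈ Λ, ∀ a, 0 ≤ ∑ i, l a i * y i)
    (hD : ∀ z : ι → ℤ, (∀ a, 0 ≤ ∑ i, l a i * z i) → ∀ y ∈ Λ, ∀ N : ℕ, 0 < N →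
      (∀ i, |(z i : ℝ) - (y i : ℝ) / N| < η) → z ∈ Λ) :
    ∃ H : Finset (ι → ℤ), ∀ z, z ∈ Λ ↔ cs z ∈ Submodule.span ℝ≥0 (cs '' H) := by
  let Q0 := Submodule.span ℝ≥0 (cs '' (Λ : Set (ι → ℤ)))
  have hP' : ∀ x ∈ Q0.topologicalClosure, ∀ a, 0 ≤ ev (l a) x := by
    intro x hx a
    refine (closure_minimal (s := (Q0 : Set (ι → ℝ))) (t := {x | 0 ≤ ev (l a) x}) ?_
      (isClosed_le continuous_const (ev_cont _))) hx
    intro y hy
    change 0 ≤ ev (l a) y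
    induction hy using Submodule.span_induction with
    | mem y hy =>
      obtain ⟨g, hg, rfl⟩ := hy
      rw [ev_cs]
      exact_mod_cast hP g hg a
    | zero => simp [ev]
    | add x y _ _ hx hy => rw [ev_add]; exact add_nonneg hx hy
    | smul c x _ hx => rw [NNReal.smul_def, ev_smul]; exact mul_nonneg c.2 hx
  have hD' : ∀ z : ι → ℤ, (∀ a, 0 ≤ ∑ i, l a i * z i) → ∀ x ∈ Q0.topologicalClosure,
      ‖cs z - x‖ < η → z ∈ Λ := by
    intro z hz x hx hzx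
    obtain ⟨x', hx', hxx⟩ := Metric.mem_closure_iff.1 hx _ (sub_pos.2 hzx)
    have hzy : ‖cs z - x'‖ < η := by
      rw [dist_eq_norm] at hxx
      linarith [norm_sub_le_norm_sub_add_norm_sub (cs z) x x']
    obtain ⟨K, hK⟩ := appr Λ x' hx'
    have hd := sub_pos.2 hzy
    obtain ⟨N, hN⟩ := exists_nat_gt (max 0 (K / (η - ‖cs z - x'‖)))
    have hN0 : (0 : ℝ) < N := (le_max_left _ _).trans_lt hN
    have hN1 := (div_lt_iff₀ hd).1 ((le_max_right _ _).trans_lt hN)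
    obtain ⟨y, hy, hy1⟩ := hK N hN0.le
    refine hD z hz y hy N (by exact_mod_cast hN0) fun i => ?_
    have h1 : |(z i : ℝ) - x' i| ≤ ‖cs z - x'‖ := norm_le_pi_norm (cs z - x') i
    have h2 : |(N : ℝ) * x' i - y i| ≤ K := (norm_le_pi_norm ((N : ℝ) • x' - cs y) i).trans hy1
    have h3 : |x' i - (y i : ℝ) / N| < η - ‖cs z - x'‖ := by
      have e : x' i - (y i : ℝ) / N = ((N : ℝ) * x' i - y i) / N := by field_simp
      rw [e, abs_div, abs_of_pos hN0, div_lt_iff₀ hN0]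
      linarith
    linarith [abs_sub_le (z i : ℝ) (x' i) ((y i : ℝ) / N)]
  have hΛ : ∀ z ∈ Λ, cs z ∈ Q0.topologicalClosure := fun z hz =>
    Q0.le_topologicalClosure (Submodule.subset_span ⟨z, hz, rfl⟩)
  obtain ⟨H, hH⟩ := poly l Q0.topologicalClosure Q0.isClosed_topologicalClosure η hη hP'
    fun z hz x hx hzx => hΛ z (hD' z hz x hx hzx)
  refine ⟨H, fun z => ?_⟩
  rw [← hH]
  refine ⟨hΛ z, fun hz => hD' z (fun a => ?_) _ hz (by simpa using hη)⟩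
  have := hP' _ hz a
  rw [ev_cs] at this
  exact_mod_cast this

/-- DIO: the monoid is finitely generated. -/
theorem dio_fg {α : Type} [Fintype α] (l : α → ι → ℤ) (Λ : AddSubmonoid (ι → ℤ))
    (η : ℝ) (hη : 0 < η) (hP : ∀ y ∈ Λ, ∀ a, 0 ≤ ∑ i, l a i * y i)
    (hD : ∀ z : ι → ℤ, (∀ a, 0 ≤ ∑ i, l a i * z i) → ∀ y ∈ Λ, ∀ N : ℕ, 0 < N →
      (∀ i, |(z i : ℝ) - (y i : ℝ) / N| < η) → z ∈ Λ) : Λ.FG := by
  obtain ⟨H, hH⟩ := dio_cone l Λ η hη hP hD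
  exact gordan H Λ hH

/-- The same with a rational tolerance. -/
theorem dio_fg_rat {α : Type} [Fintype α] (l : α → ι → ℤ) (Λ : AddSubmonoid (ι → ℤ))
    (η : ℚ) (hη : 0 < η) (hP : ∀ y ∈ Λ, ∀ a, 0 ≤ ∑ i, l a i * y i)
    (hD : ∀ z : ι → ℤ, (∀ a, 0 ≤ ∑ i, l a i * z i) → ∀ y ∈ Λ, ∀ N : ℕ, 0 < N →
      (∀ i, |(z i : ℚ) - (y i : ℚ) / N| < η) → z ∈ Λ) : Λ.FG :=
  dio_fg l Λ η (by exact_mod_cast hη) hP fun z hz y hy N hN h =>
    hD z hz y hy N hN fun i => by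
      have := h i
      exact_mod_cast this

end Pool.Agent.MP_ee8c61_ag.M3H40
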