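import Mathlib

/-! Bounded representations in finitely generated cones and simultaneous approximation. -/

set_option autoImplicit false

namespace Pool.Agent.MP_ee8c61_ag.M3H40

open Finset
open scoped NNReal

/-- Elements of a finitely generated cone have coefficients bounded by their norm. -/
theorem cone_bound {E κ : Type} [NormedAddCommGroup E] [NormedSpace ℝ E] [DecidableEq κ]
    (u : κ → E) (G : Finset κ) :
    ∃ K : ℝ, 0 ≤ K ∧ ∀ c : κ → ℝ, (∀ g, 0 ≤ c g) →
      ∃ c' : κ → ℝ, (∀ g, 0 ≤ c' g) ∧ ∑ g ∈ G, c' g • u g = ∑ g ∈ G, c g • u g ∧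
        ∀ g ∈ G, c' g ≤ K * ‖∑ g ∈ G, c g • u g‖ := by
  induction G using Finset.strongInduction with
  | H G ih =>
  by_cases hli : LinearIndependent ℝ (fun g : G => u g)
  · have hker : LinearMap.ker (Fintype.linearCombination ℝ (fun g : G => u g)) = ⊥ := by
      rw [LinearMap.ker_eq_bot']
      intro m hm
      rw [Fintype.linearCombination_apply] at hm
      funext g
      exact Fintype.linearIndependent_iff.1 hli m hm g
    obtain ⟨K, -, hK⟩ := LinearMap.exists_antilipschitzWith _ hker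
    refine ⟨K, K.2, fun c hc => ⟨c, hc, rfl, fun g hg => ?_⟩⟩
    have h1 := ZeroHomClass.bound_of_antilipschitz _ hK (fun g : G => c g)
    rw [Fintype.linearCombination_apply, Finset.sum_coe_sort G (fun g => c g • u g)] at h1
    have h2 := norm_le_pi_norm (fun g : G => c g) ⟨g, hg⟩
    exact (le_abs_self _).trans (h2.trans h1)
  · have hex : ∃ m : κ → ℝ, ∑ g ∈ G, m g • u g = 0 ∧ ∃ g ∈ G, 0 < m g := by
      rw [Fintype.not_linearIndependent_iff] at hli
      obtain ⟨m, hm, g0, hg0⟩ := hli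
      have key : ∀ s : ℝ, ∑ g ∈ G, (s * if h : g ∈ G then m ⟨g, h⟩ else 0) • u g = 0 := by
        intro s
        rw [← Finset.sum_coe_sort G]
        simp only [mul_smul, ← Finset.smul_sum]
        have : ∑ g : G, (if h : (g : κ) ∈ G then m ⟨g, h⟩ else 0) • u g = 0 := by
          rw [← hm]
          refine Finset.sum_congr rfl fun g _ => ?_
          rw [dif_pos g.2]
        rw [this, smul_zero]
      refine ⟨_, key (m g0), g0, g0.2, ?_⟩
      simp only [dif_pos g0.2]
      exact mul_self_pos.2 hg0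
    obtain ⟨m, hm, g0, hg0, hm0⟩ := hex
    have ih' : ∀ g : κ, ∃ K : ℝ, 0 ≤ K ∧ (g ∈ G → ∀ c : κ → ℝ, (∀ g, 0 ≤ c g) →
        ∃ c' : κ → ℝ, (∀ g, 0 ≤ c' g) ∧
          ∑ x ∈ G.erase g, c' x • u x = ∑ x ∈ G.erase g, c x • u x ∧
          ∀ x ∈ G.erase g, c' x ≤ K * ‖∑ x ∈ G.erase g, c x • u x‖) := by
      intro g
      by_cases hg : g ∈ G
      · obtain ⟨K, hK, h⟩ := ih _ (Finset.erase_ssubset hg)
        exact ⟨K, hK, fun _ => h⟩
      · exact ⟨0, le_rfl, fun h => absurd h hg⟩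
    choose K hK0 hK using ih'
    refine ⟨∑ g ∈ G, K g, Finset.sum_nonneg fun g _ => hK0 g, fun c hc => ?_⟩
    obtain ⟨g1, hg1, hmin⟩ := Finset.exists_min_image (G.filter fun g => 0 < m g)
      (fun g => c g / m g) ⟨g0, Finset.mem_filter.2 ⟨hg0, hm0⟩⟩
    obtain ⟨hg1G, hm1⟩ := Finset.mem_filter.1 hg1
    set t := c g1 / m g1 with ht
    have ht0 : 0 ≤ t := div_nonneg (hc g1) hm1.le
    let d : κ → ℝ := fun g => if g ∈ G then c g - t * m g else 0
    have hd : ∀ g, 0 ≤ d g := by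
      intro g
      by_cases hg : g ∈ G
      · simp only [d, if_pos hg]
        by_cases hmg : 0 < m g
        · have := hmin g (Finset.mem_filter.2 ⟨hg, hmg⟩)
          rw [le_div_iff₀ hmg] at this
          linarith
        · have : t * m g ≤ 0 := mul_nonpos_of_nonneg_of_nonpos ht0 (not_lt.1 hmg)
          linarith [hc g]
      · simp only [d, if_neg hg, le_refl]
    have hd1 : d g1 = 0 := by
      simp only [d, if_pos hg1G, ht]
      field_simp
      ring
    have hsum : ∑ x ∈ G.erase g1, d x • u x = ∑ g ∈ G, c g • u g := by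
      rw [Finset.sum_erase _ (by rw [hd1, zero_smul])]
      have : ∑ g ∈ G, d g • u g = ∑ g ∈ G, (c g • u g - t • (m g • u g)) := by
        refine Finset.sum_congr rfl fun g hg => ?_
        simp only [d, if_pos hg, sub_smul, mul_smul]
      rw [this, Finset.sum_sub_distrib, ← Finset.smul_sum, hm, smul_zero, sub_zero]
    obtain ⟨c', hc', hs', hb'⟩ := hK g1 hg1G d hd
    rw [hsum] at hs' hb'
    refine ⟨fun g => if g = g1 then 0 else c' g, fun g => ?_, ?_, fun g hg => ?_⟩
    · by_cases h : g = g1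
      · simp [h]
      · simp [h, hc' g]
    · rw [← hs', ← Finset.sum_erase G (a := g1) (by simp)]
      refine Finset.sum_congr rfl fun g hg => ?_
      simp only [if_neg (Finset.ne_of_mem_erase hg)]
    · have hle : K g1 ≤ ∑ g ∈ G, K g := Finset.single_le_sum (fun g _ => hK0 g) hg1G
      by_cases h : g = g1
      · simp only [h, if_true]
        exact mul_nonneg ((hK0 g1).trans hle) (norm_nonneg _)
      · simp only [if_neg h]
        exact (hb' g (Finset.mem_erase.2 ⟨h, hg⟩)).trans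
          (mul_le_mul_of_nonneg_right hle (norm_nonneg _))

/-- Elements of a finitely generated subspace have coefficients bounded by their norm. -/
theorem span_bound {E κ : Type} [NormedAddCommGroup E] [NormedSpace ℝ E] [FiniteDimensional ℝ E]
    (u : κ → E) (G : Finset κ) :
    ∃ K : ℝ, 0 ≤ K ∧ ∀ x ∈ Submodule.span ℝ (u '' G),
      ∃ c : κ → ℝ, ∑ g ∈ G, c g • u g = x ∧ ∀ g ∈ G, |c g| ≤ K * ‖x‖ := by
  classical
  let φ := Fintype.linearCombination ℝ (fun g : G => u g)
  obtain ⟨ψ, hψ⟩ := LinearMap.exists_rightInverse_of_surjective φ.rangeRestrict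
    (LinearMap.range_rangeRestrict φ)
  let ψ' := LinearMap.toContinuousLinearMap ψ
  refine ⟨‖ψ'‖, ψ'.opNorm_nonneg, fun x hx => ?_⟩
  have hx' : x ∈ LinearMap.range φ := by
    rw [Fintype.range_linearCombination]
    refine Submodule.span_mono ?_ hx
    rintro _ ⟨g, hg, rfl⟩
    exact ⟨⟨g, hg⟩, rfl⟩
  refine ⟨fun g => if h : g ∈ G then ψ ⟨x, hx'⟩ ⟨g, h⟩ else 0, ?_, fun g hg => ?_⟩
  · have h1 : φ (ψ ⟨x, hx'⟩) = x := congrArg Subtype.val (LinearMap.congr_fun hψ ⟨x, hx'⟩)
    rw [← Finset.sum_coe_sort G]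
    refine Eq.trans ?_ h1
    rw [Fintype.linearCombination_apply]
    refine Finset.sum_congr rfl fun g _ => ?_
    simp only [dif_pos g.2]
  · simp only [dif_pos hg]
    exact (norm_le_pi_norm (ψ ⟨x, hx'⟩) ⟨g, hg⟩).trans (ψ'.le_opNorm ⟨x, hx'⟩)

variable {ι : Type} [Fintype ι]

/-- A lattice point as a real vector. -/
def cs (z : ι → ℤ) : ι → ℝ := fun i => (z i : ℝ)

omit [Fintype ι] in
theorem cs_add (a b : ι → ℤ) : cs (a + b) = cs a + cs b := by
  funext i; simp [cs]

omit [Fintype ι] in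
theorem cs_sub (a b : ι → ℤ) : cs (a - b) = cs a - cs b := by
  funext i; simp [cs]

omit [Fintype ι] in
theorem cs_neg (a : ι → ℤ) : cs (-a) = -cs a := by
  funext i; simp [cs]

/-- Simultaneous approximation, arbitrarily far along the ray. -/
theorem dirichlet (v : ι → ℝ) (ε : ℝ) (hε : 0 < ε) (T0 : ℝ) :
    ∃ (T : ℕ) (p : ι → ℤ), T0 ≤ T ∧ ‖cs p - (T : ℝ) • v‖ < ε := by
  let s : ℕ → ι → ℝ := fun n i => Int.fract ((n : ℝ) * v i)
  have hs : ∀ n, s n ∈ Metric.closedBall (0 : ι → ℝ) 1 := by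
    intro n
    rw [mem_closedBall_zero_iff, pi_norm_le_iff_of_nonneg zero_le_one]
    intro i
    rw [Real.norm_eq_abs, abs_of_nonneg (Int.fract_nonneg _)]
    exact (Int.fract_lt_one _).le
  obtain ⟨a, -, φ, hφ, hlim⟩ := (isCompact_closedBall (0 : ι → ℝ) 1).tendsto_subseq hs
  obtain ⟨N, hN⟩ := Metric.cauchySeq_iff.1 hlim.cauchySeq ε hε
  obtain ⟨M, hM⟩ := exists_nat_ge T0
  have h1 := hφ.add_le_nat M N
  have h2 := hN N le_rfl (M + N) (Nat.le_add_left _ _)
  refine ⟨φ (M + N) - φ N, fun i => ⌊(φ (M + N) : ℝ) * v i⌋ - ⌊(φ N : ℝ) * v i⌋, ?_, ?_⟩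
  · have : M ≤ φ (M + N) - φ N := by omega
    exact hM.trans (by exact_mod_cast this)
  · rw [dist_eq_norm] at h2
    have : cs (fun i => ⌊(φ (M + N) : ℝ) * v i⌋ - ⌊(φ N : ℝ) * v i⌋) -
        ((φ (M + N) - φ N : ℕ) : ℝ) • v = (s ∘ φ) N - (s ∘ φ) (M + N) := by
      funext i
      rw [Nat.cast_sub (by omega)]
      simp only [cs, s, Function.comp, Pi.sub_apply, Pi.smul_apply, smul_eq_mul, Int.fract,
        Int.cast_sub]
      ring
    rw [this]
    exact h2

end Pool.Agent.MP_ee8c61_ag.M3H40
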