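import Pool.Agent.MP_ee8c61_ag.M3H40.Dio1

/-! A closed cone that contains all lattice points near it is rational polyhedral. -/

set_option autoImplicit false

namespace Pool.Agent.MP_ee8c61_ag.M3H40

open Finset
open scoped NNReal

variable {ι : Type} [Fintype ι]

/-- The value of an integer form. -/
def ev (l : ι → ℤ) (x : ι → ℝ) : ℝ := ∑ i, (l i : ℝ) * x i

theorem ev_add (l : ι → ℤ) (x y : ι → ℝ) : ev l (x + y) = ev l x + ev l y := by
  simp [ev, mul_add, Finset.sum_add_distrib]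

theorem ev_smul (l : ι → ℤ) (t : ℝ) (x : ι → ℝ) : ev l (t • x) = t * ev l x := by
  simp only [ev, Pi.smul_apply, smul_eq_mul, Finset.mul_sum]
  exact Finset.sum_congr rfl fun i _ => by ring

theorem ev_neg (l : ι → ℤ) (x : ι → ℝ) : ev l (-x) = -ev l x := by
  simp [ev]

theorem ev_cs (l z : ι → ℤ) : ev l (cs z) = ((∑ i, l i * z i : ℤ) : ℝ) := by
  simp [ev, cs]

theorem ev_cont (l : ι → ℤ) : Continuous (ev l) := by
  unfold ev
  fun_prop

theorem ev_abs (l : ι → ℤ) (x : ι → ℝ) : |ev l x| ≤ (∑ i, |(l i : ℝ)|) * ‖x‖ := by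
  rw [Finset.sum_mul]
  refine (Finset.abs_sum_le_sum_abs _ _).trans (Finset.sum_le_sum fun i _ => ?_)
  rw [abs_mul]
  exact mul_le_mul_of_nonneg_left (norm_le_pi_norm x i) (abs_nonneg _)

theorem rs {E : Type} [AddCommGroup E] [Module ℝ E] (L : Submodule ℝ≥0 E) {t : ℝ} (ht : 0 ≤ t)
    {x : E} (hx : x ∈ L) : t • x ∈ L := L.smul_mem (⟨t, ht⟩ : ℝ≥0) hx

/-- Lattice points near the ray of `v`. -/
def Nr (v : ι → ℝ) (ε : ℝ) : Set (ι → ℤ) := {p | ∃ t : ℝ, 0 ≤ t ∧ ‖cs p - t • v‖ < ε}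

theorem mem_span_nr (v : ι → ℝ) {ε : ℝ} (hε : 0 < ε) :
    v ∈ Submodule.span ℝ (cs '' Nr v ε) := by
  have hc : IsClosed (Submodule.span ℝ (cs '' Nr v ε) : Set (ι → ℝ)) :=
    Submodule.closed_of_finiteDimensional _
  refine hc.closure_subset (Metric.mem_closure_iff.2 fun δ hδ => ?_)
  obtain ⟨T, p, hT, hp⟩ := dirichlet v (min ε δ) (lt_min hε hδ) 1
  have hT0 : (0 : ℝ) < T := by linarith
  refine ⟨(T : ℝ)⁻¹ • cs p, Submodule.smul_mem _ _ (Submodule.subset_span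
    ⟨p, ⟨T, hT0.le, hp.trans_le (min_le_left _ _)⟩, rfl⟩), ?_⟩
  rw [dist_comm, dist_eq_norm]
  have : (T : ℝ)⁻¹ • cs p - v = (T : ℝ)⁻¹ • (cs p - (T : ℝ) • v) := by
    rw [smul_sub, smul_smul, inv_mul_cancel₀ hT0.ne', one_smul]
  rw [this, norm_smul, Real.norm_eq_abs, abs_of_pos (inv_pos.2 hT0)]
  calc (T : ℝ)⁻¹ * ‖cs p - (T : ℝ) • v‖ ≤ 1 * ‖cs p - (T : ℝ) • v‖ :=
        mul_le_mul_of_nonneg_right (inv_le_one_of_one_le₀ hT) (norm_nonneg _)
    _ < δ := by rw [one_mul]; exact hp.trans_le (min_le_right _ _)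

/-- `v` is a relative interior point of the cone spanned by the lattice points near its ray. -/
theorem rel (v : ι → ℝ) {ε : ℝ} (hε : 0 < ε) (L : Submodule ℝ≥0 (ι → ℝ))
    (hL : ∀ p ∈ Nr v ε, cs p ∈ L) :
    ∀ w ∈ Submodule.span ℝ (cs '' Nr v ε), ∃ T : ℝ, 0 ≤ T ∧ w + T • v ∈ L := by
  classical
  let D : Submodule ℝ≥0 (ι → ℝ) :=
    { carrier := {w | ∃ T : ℝ, 0 ≤ T ∧ w + T • v ∈ L}
      zero_mem' := ⟨0, le_rfl, by simp⟩
      add_mem' := by
        rintro a b ⟨s, hs, ha⟩ ⟨t, ht, hb⟩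
        refine ⟨s + t, add_nonneg hs ht, ?_⟩
        have := L.add_mem ha hb
        rwa [add_add_add_comm, ← add_smul] at this
      smul_mem' := by
        rintro c a ⟨s, hs, ha⟩
        refine ⟨c * s, mul_nonneg c.2 hs, ?_⟩
        have := rs L c.2 ha
        rwa [smul_add, smul_smul] at this }
  have hLD : ∀ x ∈ L, x ∈ D := fun x hx => ⟨0, le_rfl, by simpa using hx⟩
  obtain ⟨F0, hF0, hsp⟩ := (Submodule.fg_span_iff_fg_span_finset_subset (R := ℝ)
    (cs '' Nr v ε)).1 (IsNoetherian.noetherian _)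
  have hv := mem_span_nr v hε
  obtain ⟨K, hK0, hK⟩ := span_bound (fun x : ι → ℝ => x) F0
  rw [Set.image_id'] at hK
  have hF0L : ∀ g ∈ F0, g ∈ L := by
    intro g hg
    obtain ⟨p, hp, rfl⟩ := hF0 hg
    exact hL p hp
  set δ : ℝ := 1 / (2 * (K + 1) * (F0.card + 1)) with hδ
  have hδ0 : 0 < δ := by positivity
  have h1 : ∀ g : ι → ℝ, ∃ e : ι → ℝ, g ∈ F0 → e ∈ Submodule.span ℝ (cs '' Nr v ε) ∧ ‖e‖ ≤ δ ∧
      -g + e ∈ D := by
    intro g
    by_cases hg : g ∈ F0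
    · obtain ⟨p, ⟨t, ht, hp⟩, rfl⟩ := hF0 hg
      obtain ⟨T, q, hT, hq⟩ := dirichlet v (min δ (ε - ‖cs p - t • v‖))
        (lt_min hδ0 (sub_pos.2 hp)) t
      have hq1 := hq.trans_le (min_le_left _ _)
      have hq2 := hq.trans_le (min_le_right _ _)
      have hqN : q ∈ Nr v ε :=
        ⟨T, Nat.cast_nonneg _, by linarith [norm_nonneg (cs p - t • v)]⟩
      refine ⟨cs q - (T : ℝ) • v, fun _ => ⟨Submodule.sub_mem _
        (Submodule.subset_span ⟨q, hqN, rfl⟩) (Submodule.smul_mem _ _ hv), hq1.le,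
        T, Nat.cast_nonneg _, ?_⟩⟩
      have hm : q - p ∈ Nr v ε := by
        refine ⟨T - t, sub_nonneg.2 hT, ?_⟩
        have : cs (q - p) - ((T : ℝ) - t) • v = (cs q - (T : ℝ) • v) - (cs p - t • v) := by
          rw [cs_sub, sub_smul]; abel
        rw [this]
        linarith [norm_sub_le (cs q - (T : ℝ) • v) (cs p - t • v)]
      have h2 := hL _ hm
      have : -cs p + (cs q - (T : ℝ) • v) + (T : ℝ) • v = cs (q - p) := by
        rw [cs_sub]; abel
      rwa [this]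
    · exact ⟨0, fun h => absurd h hg⟩
  choose e he using h1
  have hes : ∑ g ∈ F0, e g ∈ Submodule.span ℝ (F0 : Set (ι → ℝ)) := by
    rw [← hsp]
    exact Submodule.sum_mem _ fun g hg => (he g hg).1
  obtain ⟨c, hc, hcb⟩ := hK _ hes
  have hnorm : ‖∑ g ∈ F0, e g‖ ≤ F0.card * δ := by
    refine (norm_sum_le _ _).trans ?_
    have := Finset.sum_le_card_nsmul F0 (fun g => ‖e g‖) δ fun g hg => (he g hg).2.1
    rwa [nsmul_eq_mul] at this
  have hc2 : ∀ g ∈ F0, c g ≤ 1 / 2 := by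
    intro g hg
    refine (le_abs_self _).trans ((hcb g hg).trans ?_)
    refine (mul_le_mul_of_nonneg_left hnorm hK0).trans ?_
    rw [hδ, mul_one_div, ← mul_div_assoc, div_le_div_iff₀ (by positivity) (by positivity)]
    have : (0 : ℝ) ≤ F0.card := Nat.cast_nonneg _
    nlinarith
  have hsum : ∑ g ∈ F0, (-g + e g) ∈ D := Submodule.sum_mem _ fun g hg => (he g hg).2.2
  have hneg : ∀ g ∈ F0, -g ∈ D := by
    intro g0 hg0
    have h2 : ∑ g ∈ F0.erase g0, (1 - c g) • g ∈ D := Submodule.sum_mem _ fun g hg =>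
      rs D (by linarith [hc2 g (Finset.mem_of_mem_erase hg)])
        (hLD _ (hF0L g (Finset.mem_of_mem_erase hg)))
    have h3 := D.add_mem hsum h2
    have h4 : ∑ g ∈ F0, (-g + e g) + ∑ g ∈ F0.erase g0, (1 - c g) • g = (1 - c g0) • (-g0) := by
      have h5 := Finset.add_sum_erase F0 (fun g => (1 - c g) • g) hg0
      have h6 : ∑ g ∈ F0, (1 - c g) • g = ∑ g ∈ F0, g - ∑ g ∈ F0, e g := by
        rw [← hc, ← Finset.sum_sub_distrib]
        exact Finset.sum_congr rfl fun g _ => by rw [sub_smul, one_smul]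
      rw [Finset.sum_add_distrib, Finset.sum_neg_distrib, smul_neg,
        eq_sub_of_add_eq' h5, h6]
      abel
    rw [h4] at h3
    have h7 : 0 < 1 - c g0 := by linarith [hc2 g0 hg0]
    have h8 := rs D (inv_pos.2 h7).le h3
    rwa [smul_smul, inv_mul_cancel₀ h7.ne', one_smul] at h8
  intro w hw
  rw [hsp] at hw
  have : w ∈ D ∧ -w ∈ D := by
    induction hw using Submodule.span_induction with
    | mem x hx => exact ⟨hLD _ (hF0L x hx), hneg x hx⟩
    | zero => exact ⟨D.zero_mem, by rw [neg_zero]; exact D.zero_mem⟩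
    | add x y _ _ hx hy => exact ⟨D.add_mem hx.1 hy.1, by rw [neg_add]; exact D.add_mem hx.2 hy.2⟩
    | smul a x _ hx =>
      rcases le_total 0 a with h | h
      · exact ⟨rs D h hx.1, by rw [← smul_neg]; exact rs D h hx.2⟩
      · refine ⟨?_, ?_⟩
        · have := rs D (neg_nonneg.2 h) hx.2
          rwa [neg_smul_neg] at this
        · have := rs D (neg_nonneg.2 h) hx.1
          rwa [neg_smul] at this
  exact this.1

theorem span_pm {E : Type} [AddCommGroup E] [Module ℝ E] (L : Submodule ℝ≥0 E) (s : Set E)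
    (h : ∀ x ∈ s, x ∈ L ∧ -x ∈ L) : ∀ w ∈ Submodule.span ℝ s, w ∈ L := by
  intro w hw
  have : w ∈ L ∧ -w ∈ L := by
    induction hw using Submodule.span_induction with
    | mem x hx => exact h x hx
    | zero => exact ⟨L.zero_mem, by rw [neg_zero]; exact L.zero_mem⟩
    | add x y _ _ hx hy => exact ⟨L.add_mem hx.1 hy.1, by rw [neg_add]; exact L.add_mem hx.2 hy.2⟩
    | smul a x _ hx =>
      rcases le_total 0 a with h | h
      · exact ⟨rs L h hx.1, by rw [← smul_neg]; exact rs L h hx.2⟩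
      · refine ⟨?_, ?_⟩
        · have := rs L (neg_nonneg.2 h) hx.2
          rwa [neg_smul_neg] at this
        · have := rs L (neg_nonneg.2 h) hx.1
          rwa [neg_smul] at this
  exact this.1

theorem mem_cone_iff {E κ : Type} [AddCommGroup E] [Module ℝ E] (u : κ → E) (G : Finset κ)
    (x : E) : x ∈ Submodule.span ℝ≥0 (u '' G) ↔
      ∃ c : κ → ℝ, (∀ g, 0 ≤ c g) ∧ ∑ g ∈ G, c g • u g = x := by
  rw [Submodule.mem_span_image_finset_iff_exists_fun']
  constructor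
  · rintro ⟨c, rfl⟩
    exact ⟨fun g => c g, fun g => (c g).2, rfl⟩
  · rintro ⟨c, hc, rfl⟩
    exact ⟨fun g => ⟨c g, hc g⟩, rfl⟩

end Pool.Agent.MP_ee8c61_ag.M3H40
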