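import Pool.Agent.MP_ee8c61_ag.M3H40.Dio2

/-! The induction on the codimension of the lineality space. -/

set_option autoImplicit false

namespace Pool.Agent.MP_ee8c61_ag.M3H40

open Finset
open scoped NNReal

variable {ι : Type} [Fintype ι]

/-- `C` is closed, lies in the cone of the forms `A` and contains its lattice points near `C`. -/
def Dc (A : Finset (ι → ℤ)) (η : ℝ) (C : Submodule ℝ≥0 (ι → ℝ)) : Prop :=
  IsClosed (C : Set (ι → ℝ)) ∧ (∀ x ∈ C, ∀ l ∈ A, 0 ≤ ev l x) ∧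
    ∀ z : ι → ℤ, (∀ l ∈ A, 0 ≤ ev l (cs z)) → ∀ x ∈ C, ‖cs z - x‖ < η → cs z ∈ C

/-- `Y` lies in the cone spanned by finitely many lattice points of `C`. -/
def Gd (C : Submodule ℝ≥0 (ι → ℝ)) (Y : Set (ι → ℝ)) : Prop :=
  ∃ H : Finset (ι → ℤ), (∀ z ∈ H, cs z ∈ C) ∧ ∀ y ∈ Y, y ∈ Submodule.span ℝ≥0 (cs '' H)

omit [Fintype ι] in
theorem Gd.mono {C : Submodule ℝ≥0 (ι → ℝ)} {Y Z : Set (ι → ℝ)} (h : Gd C Z) (hY : Y ⊆ Z) :
    Gd C Y := by
  obtain ⟨H, h1, h2⟩ := h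
  exact ⟨H, h1, fun y hy => h2 y (hY hy)⟩

omit [Fintype ι] in
theorem Gd.union {C : Submodule ℝ≥0 (ι → ℝ)} {Y Z : Set (ι → ℝ)} (h : Gd C Y) (h' : Gd C Z) :
    Gd C (Y ∪ Z) := by
  classical
  obtain ⟨H, h1, h2⟩ := h
  obtain ⟨H', h1', h2'⟩ := h'
  refine ⟨H ∪ H', fun z hz => (Finset.mem_union.1 hz).elim (h1 z) (h1' z), ?_⟩
  rintro y (hy | hy)
  · exact Submodule.span_mono (Set.image_mono (by simp)) (h2 y hy)
  · exact Submodule.span_mono (Set.image_mono (by simp)) (h2' y hy)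

omit [Fintype ι] in
theorem gd_empty (C : Submodule ℝ≥0 (ι → ℝ)) : Gd C ∅ := ⟨∅, by simp, by simp⟩

omit [Fintype ι] in
theorem gd_one (C : Submodule ℝ≥0 (ι → ℝ)) (y : ι → ℝ)
    (hy : y ∈ Submodule.span ℝ≥0 (cs '' {z : ι → ℤ | cs z ∈ C})) : Gd C {y} := by
  classical
  obtain ⟨T, hT, hy⟩ := Submodule.mem_span_finite_of_mem_span hy
  obtain ⟨H, hH, rfl⟩ := Finset.subset_set_image_iff.1 hT
  refine ⟨H, fun z hz => hH hz, ?_⟩
  rintro _ rfl
  rwa [Finset.coe_image] at hy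

omit [Fintype ι] in
theorem gd_fin (C : Submodule ℝ≥0 (ι → ℝ)) (Y : Set (ι → ℝ)) (hY : Y.Finite)
    (hy : ∀ y ∈ Y, y ∈ Submodule.span ℝ≥0 (cs '' {z : ι → ℤ | cs z ∈ C})) : Gd C Y := by
  induction Y, hY using Set.Finite.induction_on with
  | empty => exact gd_empty C
  | insert _ _ ih =>
    rw [Set.insert_eq]
    exact (gd_one C _ (hy _ (Set.mem_insert _ _))).union
      (ih fun y h => hy y (Set.mem_insert_of_mem _ h))

omit [Fintype ι] in
theorem Gd.span {C : Submodule ℝ≥0 (ι → ℝ)} {Y : Set (ι → ℝ)} (h : Gd C Y) :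
    Gd C (Submodule.span ℝ≥0 Y) := by
  obtain ⟨H, h1, h2⟩ := h
  exact ⟨H, h1, fun y hy => Submodule.span_le.2 h2 hy⟩

theorem near (G : Finset (ι → ℤ)) (v : ι → ℝ) {T : ℝ} (hTn : 0 ≤ T) :
    ∃ δ : ℝ, 0 < δ ∧ ∀ x : ι → ℝ, x - v ∈ Submodule.span ℝ≥0 (cs '' G) → ‖x - v‖ < δ →
      x ∈ Submodule.span ℝ≥0 (insert v ((fun g => cs g + T • v) '' G)) := by
  classical
  obtain ⟨K, hK0, hK⟩ := cone_bound (cs (ι := ι)) G
  have hpos : 0 < T * G.card * K + 1 := by positivity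
  refine ⟨1 / (T * G.card * K + 1), one_div_pos.2 hpos, fun x h1 hxv => ?_⟩
  obtain ⟨c0, hc0, hs0⟩ := (mem_cone_iff cs G _).1 h1
  obtain ⟨c, hc, hs, hb⟩ := hK c0 hc0
  rw [hs0] at hs hb
  have h2 : ∑ g ∈ G, c g ≤ G.card * (K * ‖x - v‖) := by
    have := Finset.sum_le_card_nsmul G c _ hb
    rwa [nsmul_eq_mul] at this
  have h3 : 0 ≤ 1 - T * ∑ g ∈ G, c g := by
    rw [lt_div_iff₀ hpos] at hxv
    have := mul_le_mul_of_nonneg_left h2 hTn
    nlinarith [norm_nonneg (x - v)]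
  have e : x = (1 - T * ∑ g ∈ G, c g) • v + ∑ g ∈ G, c g • (cs g + T • v) := by
    simp only [smul_add, Finset.sum_add_distrib, hs, smul_smul, ← Finset.sum_smul,
      ← Finset.sum_mul, sub_smul, one_smul, mul_comm T]
    abel
  rw [e]
  refine Submodule.add_mem _ (rs _ h3 (Submodule.subset_span (Set.mem_insert _ _)))
    (Submodule.sum_mem _ fun g hg => rs _ (hc g)
      (Submodule.subset_span (Set.mem_insert_of_mem _ ⟨g, hg, rfl⟩)))

theorem loc (n : ℕ) (η : ℝ) (hη : 0 < η)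
    (ih : ∀ (A : Finset (ι → ℤ)) (S : Set (ι → ℤ)) (C : Submodule ℝ≥0 (ι → ℝ)), Dc A η C →
      (∀ w ∈ Submodule.span ℝ (cs '' S), w ∈ C) →
      Module.finrank ℝ (ι → ℝ) ≤ Module.finrank ℝ (Submodule.span ℝ (cs '' S)) + n → Gd C C)
    (A : Finset (ι → ℤ)) (S : Set (ι → ℤ)) (C : Submodule ℝ≥0 (ι → ℝ)) (hC : Dc A η C)
    (hS : ∀ w ∈ Submodule.span ℝ (cs '' S), w ∈ C)
    (hn : Module.finrank ℝ (ι → ℝ) ≤ Module.finrank ℝ (Submodule.span ℝ (cs '' S)) + (n + 1))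
    (v : ι → ℝ) (hv : v ∈ C) (hv0 : v ∉ Submodule.span ℝ (cs '' S)) :
    ∃ δ : ℝ, 0 < δ ∧ Gd C {x | x ∈ C ∧ ‖x - v‖ < δ} := by
  classical
  obtain ⟨hcl, hP, hD⟩ := hC
  set M : ℝ := ∑ l ∈ A, ∑ i, |(l i : ℝ)| with hM
  have hMl : ∀ l ∈ A, ∑ i, |(l i : ℝ)| ≤ M := fun l hl =>
    Finset.single_le_sum (f := fun l : ι → ℤ => ∑ i, |(l i : ℝ)|)
      (fun l _ => Finset.sum_nonneg fun i _ => abs_nonneg _) hl
  have hM0 : 0 ≤ M := Finset.sum_nonneg fun l _ => Finset.sum_nonneg fun i _ => abs_nonneg _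
  set ε : ℝ := min η (1 / (M + 1)) with hε
  have hε0 : 0 < ε := lt_min hη (by positivity)
  have hsm : ∀ l ∈ A, ∀ e : ι → ℝ, ‖e‖ < ε → |ev l e| < 1 := by
    intro l hl e he
    have h1 : ‖e‖ < 1 / (M + 1) := he.trans_le (min_le_right _ _)
    rw [lt_div_iff₀ (by positivity)] at h1
    have h2 := (ev_abs l e).trans (mul_le_mul_of_nonneg_right (hMl l hl) (norm_nonneg e))
    nlinarith [norm_nonneg e]
  have hint : ∀ l z : ι → ℤ, -1 < ev l (cs z) → 0 ≤ ev l (cs z) := by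
    intro l z h
    rw [ev_cs] at h ⊢
    have : (-1 : ℤ) < ∑ i, l i * z i := by exact_mod_cast h
    exact_mod_cast (by omega : (0 : ℤ) ≤ ∑ i, l i * z i)
  have hNC : ∀ p ∈ Nr v ε, cs p ∈ C := by
    rintro p ⟨t, ht, hp⟩
    refine hD p (fun l hl => hint l p ?_) _ (rs C ht hv) (hp.trans_le (min_le_left _ _))
    have h1 : ev l (cs p) = t * ev l v + ev l (cs p - t • v) := by
      rw [← ev_smul, ← ev_add]; congr 1; abel
    have h2 := abs_lt.1 (hsm l hl _ hp)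
    have h3 := mul_nonneg ht (hP v hv l hl)
    linarith [h2.1]
  let L := Submodule.span ℝ≥0 (cs '' {z : ι → ℤ | cs z ∈ C})
  have hLC : ∀ x ∈ L, x ∈ C := fun x hx =>
    (Submodule.span_le.2 (by rintro _ ⟨z, hz, rfl⟩; exact hz) : L ≤ C) hx
  have hCL : ∀ z : ι → ℤ, cs z ∈ C → cs z ∈ L := fun z hz => Submodule.subset_span ⟨z, hz, rfl⟩
  have hrel := rel v hε0 L fun p hp => hCL p (hNC p hp)
  have hvN := mem_span_nr v hε0
  have hvL : v ∈ L := by
    obtain ⟨T, hT, h⟩ := hrel v hvN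
    have h1 : 0 < 1 + T := by linarith
    have h2 := rs L (inv_pos.2 h1).le h
    have h3 : v + T • v = (1 + T) • v := by rw [add_smul, one_smul]
    rwa [h3, smul_smul, inv_mul_cancel₀ h1.ne', one_smul] at h2
  have hSL : ∀ w ∈ Submodule.span ℝ (cs '' S), w ∈ L := by
    refine span_pm L _ ?_
    rintro _ ⟨z, hz, rfl⟩
    have h1 : cs z ∈ Submodule.span ℝ (cs '' S) := Submodule.subset_span ⟨z, hz, rfl⟩
    refine ⟨hCL z (hS _ h1), ?_⟩
    rw [← cs_neg]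
    exact hCL _ (by rw [cs_neg]; exact hS _ (Submodule.neg_mem _ h1))
  let W := Submodule.span ℝ (cs '' (S ∪ Nr v ε))
  have hW : ∀ w ∈ W, ∃ T0 : ℝ, 0 ≤ T0 ∧ ∀ T, T0 ≤ T → w + T • v ∈ L := by
    intro w hw
    simp only [W, Set.image_union, Submodule.span_union] at hw
    obtain ⟨a, ha, b, hb, rfl⟩ := Submodule.mem_sup.1 hw
    obtain ⟨T0, hT0, h⟩ := hrel b hb
    refine ⟨T0, hT0, fun T hT => ?_⟩
    have := L.add_mem (L.add_mem (hSL a ha) h) (rs L (sub_nonneg.2 hT) hvL)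
    have e : a + (b + T0 • v) + (T - T0) • v = a + b + T • v := by rw [sub_smul]; abel
    rwa [e] at this
  have hNW : Submodule.span ℝ (cs '' Nr v ε) ≤ W :=
    Submodule.span_mono (Set.image_mono Set.subset_union_right)
  have hSW : Submodule.span ℝ (cs '' S) < W :=
    lt_of_le_of_ne (Submodule.span_mono (Set.image_mono Set.subset_union_left))
      fun h => hv0 (by rw [h]; exact hNW hvN)
  let C0 := C ⊔ W.restrictScalars ℝ≥0
  let C1 := C0.topologicalClosure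
  let A1 := A.filter fun l => ev l v = 0
  have hC0 : ∀ x ∈ C0, ∃ c ∈ C, ∃ w ∈ W, c + w = x := fun x hx => Submodule.mem_sup.1 hx
  have hP1 : ∀ x ∈ C1, ∀ l ∈ A1, 0 ≤ ev l x := by
    intro x hx l hl
    obtain ⟨hlA, hlv⟩ := Finset.mem_filter.1 hl
    refine (closure_minimal (s := (C0 : Set (ι → ℝ))) (t := {x | 0 ≤ ev l x}) ?_
      (isClosed_le continuous_const (ev_cont l))) hx
    intro y hy
    obtain ⟨c, hc, w, hw, rfl⟩ := hC0 y hy
    obtain ⟨T, -, hT⟩ := hW w hw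
    have h1 := hP _ (hLC _ (hT T le_rfl)) l hlA
    rw [ev_add, ev_smul, hlv, mul_zero, add_zero] at h1
    change 0 ≤ ev l (c + w)
    rw [ev_add]
    exact add_nonneg (hP c hc l hlA) h1
  have hst : ∀ z : ι → ℤ, (∀ l ∈ A1, 0 ≤ ev l (cs z)) → ∀ x ∈ C1, ‖cs z - x‖ < η →
      ∃ q : ι → ℤ, cs q ∈ W ∧ cs (z + q) ∈ C := by
    intro z hz x hx hzx
    obtain ⟨y, hy, hxy⟩ := Metric.mem_closure_iff.1 hx _ (sub_pos.2 hzx)
    have hzy : ‖cs z - y‖ < η := by
      rw [dist_eq_norm] at hxy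
      linarith [norm_sub_le_norm_sub_add_norm_sub (cs z) x y]
    obtain ⟨c, hc, w, hw, rfl⟩ := hC0 y hy
    obtain ⟨T0, hT0, hT⟩ := hW w hw
    obtain ⟨T, q, hTT, hq⟩ := dirichlet v (min ε (η - ‖cs z - (c + w)‖))
      (lt_min hε0 (sub_pos.2 hzy)) (T0 + ∑ l ∈ A, (|ev l (cs z)| + 1) / ev l v)
    have hq1 := hq.trans_le (min_le_left _ _)
    have hq2 := hq.trans_le (min_le_right _ _)
    have hnn : ∀ l ∈ A, 0 ≤ (|ev l (cs z)| + 1) / ev l v := fun l hl =>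
      div_nonneg (by positivity) (hP v hv l hl)
    have hs0 := Finset.sum_nonneg hnn
    refine ⟨q, hNW (Submodule.subset_span ⟨q, ⟨T, Nat.cast_nonneg _, hq1⟩, rfl⟩), ?_⟩
    refine hD _ (fun l hl => hint l _ ?_) (c + (w + (T : ℝ) • v))
      (C.add_mem hc (hLC _ (hT T (by linarith)))) ?_
    · have h1 : ev l (cs (z + q)) = ev l (cs z) + T * ev l v + ev l (cs q - (T : ℝ) • v) := by
        rw [← ev_smul, ← ev_add, ← ev_add, cs_add]; congr 1; abel
      have h2 := (abs_lt.1 (hsm l hl _ hq1)).1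
      rcases (hP v hv l hl).eq_or_lt with h | h
      · have := hz l (Finset.mem_filter.2 ⟨hl, h.symm⟩)
        rw [h1, ← h]
        linarith
      · have h3 : (|ev l (cs z)| + 1) / ev l v ≤ T :=
          (Finset.single_le_sum hnn hl).trans (by linarith)
        rw [div_le_iff₀ h] at h3
        linarith [neg_abs_le (ev l (cs z))]
    · have e : cs (z + q) - (c + (w + (T : ℝ) • v)) =
          (cs z - (c + w)) + (cs q - (T : ℝ) • v) := by rw [cs_add]; abel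
      rw [e]
      linarith [norm_add_le (cs z - (c + w)) (cs q - (T : ℝ) • v)]
  have hle : ∀ x ∈ C0, x ∈ C1 := fun x hx => C0.le_topologicalClosure hx
  have hCW : ∀ c ∈ C, ∀ w ∈ W, c + w ∈ C1 := fun c hc w hw =>
    hle _ (Submodule.add_mem_sup hc hw)
  obtain ⟨G, hG, hG1⟩ := ih A1 (S ∪ Nr v ε) C1 ⟨C0.isClosed_topologicalClosure, hP1, by
      intro z hz x hx hzx
      obtain ⟨q, hq, hzq⟩ := hst z hz x hx hzx
      have := hCW _ hzq _ (W.neg_mem hq)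
      rwa [cs_add, add_neg_cancel_right] at this⟩
    (fun w hw => by simpa using hCW 0 C.zero_mem w hw)
    (by have := Submodule.finrank_lt_finrank_of_lt hSW; change _ ≤ Module.finrank ℝ W + n; omega)
  have hGL : ∀ g : ι → ℤ, ∃ T0 : ℝ, 0 ≤ T0 ∧ (g ∈ G → ∀ T, T0 ≤ T → cs g + T • v ∈ L) := by
    intro g
    by_cases hg : g ∈ G
    · obtain ⟨q, hq, hzq⟩ := hst g (hP1 _ (hG g hg)) _ (hG g hg) (by simpa using hη)
      obtain ⟨T0, hT0, hT⟩ := hW _ (W.neg_mem hq)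
      refine ⟨T0, hT0, fun _ T h => ?_⟩
      have := L.add_mem (hCL _ hzq) (hT T h)
      have e : cs (g + q) + (-cs q + T • v) = cs g + T • v := by rw [cs_add]; abel
      rwa [e] at this
    · exact ⟨0, le_rfl, fun h => absurd h hg⟩
  choose T0 hT0 hT using hGL
  obtain ⟨T, hTn, hTg⟩ : ∃ T : ℝ, 0 ≤ T ∧ ∀ g ∈ G, T0 g ≤ T :=
    ⟨∑ g ∈ G, T0 g, Finset.sum_nonneg fun g _ => hT0 g,
      fun g hg => Finset.single_le_sum (fun g _ => hT0 g) hg⟩
  have hY : Gd C (insert v ((fun g => cs g + T • v) '' G)) := by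
    refine gd_fin C _ ((G.finite_toSet.image _).insert v) ?_
    rintro y (rfl | ⟨g, hg, rfl⟩)
    · exact hvL
    · exact hT g hg T (hTg g hg)
  obtain ⟨δ, hδ, hx⟩ := near G v hTn
  refine ⟨δ, hδ, hY.span.mono ?_⟩
  rintro x ⟨hxC, hxv⟩
  refine hx x (hG1 _ ?_) hxv
  change x - v ∈ C1
  rw [sub_eq_add_neg]
  exact hCW x hxC _ (W.neg_mem (hNW hvN))

theorem glob (η : ℝ) (hη : 0 < η) (n : ℕ) :
    ∀ (A : Finset (ι → ℤ)) (S : Set (ι → ℤ)) (C : Submodule ℝ≥0 (ι → ℝ)), Dc A η C →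
      (∀ w ∈ Submodule.span ℝ (cs '' S), w ∈ C) →
      Module.finrank ℝ (ι → ℝ) ≤ Module.finrank ℝ (Submodule.span ℝ (cs '' S)) + n →
      Gd C C := by
  have h0 : ∀ (S : Set (ι → ℤ)) (C : Submodule ℝ≥0 (ι → ℝ)),
      (∀ w ∈ Submodule.span ℝ (cs '' S), w ∈ C) → Gd C (Submodule.span ℝ (cs '' S)) := by
    intro S C hS
    obtain ⟨F, hF, hsp⟩ := (Submodule.fg_span_iff_fg_span_finset_subset (R := ℝ)
      (cs '' S)).1 (IsNoetherian.noetherian _)
    have h1 : Gd C ((F : Set (ι → ℝ)) ∪ (fun x => -x) '' F) := by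
      refine gd_fin C _ (F.finite_toSet.union (F.finite_toSet.image _)) ?_
      rintro y (hy | ⟨x, hx, rfl⟩)
      · obtain ⟨z, hz, rfl⟩ := hF hy
        exact Submodule.subset_span ⟨z, hS _ (Submodule.subset_span ⟨z, hz, rfl⟩), rfl⟩
      · obtain ⟨z, hz, rfl⟩ := hF hx
        refine Submodule.subset_span ⟨-z, ?_, cs_neg z⟩
        change cs (-z) ∈ C
        rw [cs_neg]
        exact hS _ (Submodule.neg_mem _ (Submodule.subset_span ⟨z, hz, rfl⟩))
    refine h1.span.mono fun w hw => ?_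
    rw [hsp] at hw
    exact span_pm _ _ (fun x hx => ⟨Submodule.subset_span (Or.inl hx),
      Submodule.subset_span (Or.inr ⟨x, hx, rfl⟩)⟩) w hw
  induction n with
  | zero =>
    intro A S C _ hS hn
    have : Submodule.span ℝ (cs '' S) = ⊤ :=
      Submodule.eq_top_of_finrank_eq (le_antisymm (Submodule.finrank_le _) hn)
    exact (h0 S C hS).mono fun x _ => by rw [this]; trivial
  | succ n ih =>
    intro A S C hC hS hn
    obtain ⟨W', hW'⟩ := Submodule.exists_isCompl (Submodule.span ℝ (cs '' S))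
    let K : Set (ι → ℝ) := (C : Set (ι → ℝ)) ∩ W' ∩ Metric.sphere 0 1
    have hK : IsCompact K := (isCompact_sphere 0 1).inter_left
      (hC.1.inter (Submodule.closed_of_finiteDimensional W'))
    have hGK : Gd C K := by
      refine hK.induction_on (p := Gd C) (gd_empty C) (fun s t h ht => ht.mono h)
        (fun s t hs ht => hs.union ht) ?_
      rintro v ⟨⟨hv, hv'⟩, hv1⟩
      have hv0 : v ∉ Submodule.span ℝ (cs '' S) := fun h => by
        have := (Submodule.disjoint_def.1 hW'.disjoint) v h hv'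
        rw [this] at hv1
        simp at hv1
      obtain ⟨δ, hδ, hG⟩ := loc n η hη ih A S C hC hS hn v hv hv0
      refine ⟨_, ?_, hG⟩
      refine Filter.mem_of_superset (inter_mem_nhdsWithin K (Metric.ball_mem_nhds v hδ)) ?_
      rintro x ⟨hx, hxv⟩
      exact ⟨hx.1.1, by rwa [Metric.mem_ball, dist_eq_norm] at hxv⟩
    refine ((h0 S C hS).union hGK).span.mono fun x hx => ?_
    have hx' : x ∈ Submodule.span ℝ (cs '' S) ⊔ W' := by rw [hW'.sup_eq_top]; trivial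
    obtain ⟨a, ha, b, hb, rfl⟩ := Submodule.mem_sup.1 hx'
    refine Submodule.add_mem _ (Submodule.subset_span (Or.inl ha)) ?_
    by_cases hb0 : b = 0
    · rw [hb0]; exact Submodule.zero_mem _
    have hbn : 0 < ‖b‖ := norm_pos_iff.2 hb0
    have hbC : b ∈ C := by
      have := C.add_mem (hS _ (Submodule.neg_mem _ ha)) hx
      rwa [neg_add_cancel_left] at this
    have h1 : ‖b‖⁻¹ • b ∈ K := ⟨⟨rs C (inv_pos.2 hbn).le hbC, W'.smul_mem _ hb⟩, by
      rw [mem_sphere_zero_iff_norm, norm_smul, norm_inv, norm_norm, inv_mul_cancel₀ hbn.ne']⟩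
    have h2 := rs (Submodule.span ℝ≥0 ((Submodule.span ℝ (cs '' S) : Set (ι → ℝ)) ∪ K)) hbn.le
      (Submodule.subset_span (Or.inr h1))
    rwa [smul_smul, mul_inv_cancel₀ hbn.ne', one_smul] at h2

/-- A closed cone that contains the admissible lattice points near it is spanned by finitely
many lattice points. -/
theorem Dc.gd {A : Finset (ι → ℤ)} {η : ℝ} (hη : 0 < η) {C : Submodule ℝ≥0 (ι → ℝ)}
    (h : Dc A η C) : Gd C C :=
  glob η hη _ A ∅ C h (fun w hw => by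
    rw [Set.image_empty, Submodule.span_empty, Submodule.mem_bot] at hw
    rw [hw]; exact C.zero_mem) (Nat.le_add_left _ _)

end Pool.Agent.MP_ee8c61_ag.M3H40
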